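import Pool.Agent.H.MP_526336.C

set_option autoImplicit false

namespace Pool.Agent.Results.MP_526336_an.NoBasis

open Pool.Agent.H.MP_526336

def Asplund (X : Type) [NormedAddCommGroup X] [NormedSpace ℝ X] : Prop :=
  ∀ Z : Submodule ℝ X, TopologicalSpace.IsSeparable (Z : Set X) →
    TopologicalSpace.SeparableSpace (StrongDual ℝ Z)

def HasBasis (V : Type) [NormedAddCommGroup V] [NormedSpace ℝ V] : Prop :=
  ∃ (Γ : Type) (y : Γ → V) (f : Γ → StrongDual ℝ V),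
    (∀ i, f i (y i) = 1) ∧ (∀ i j, i ≠ j → f i (y j) = 0) ∧
    Dense (Submodule.span ℝ (Set.range y) : Set V) ∧
    (∀ v, (∀ i, f i v = 0) → v = 0) ∧
    ∀ v, IsLUB {r : ℝ | ∃ p : StrongDual ℝ V,
      {γ : Γ | p (y γ) ≠ 0}.Countable ∧ ‖p‖ ≤ 1 ∧ r = |p v|} ‖v‖

theorem result :
    ∃ (X : Type) (_ : NormedAddCommGroup X) (_ : NormedSpace ℝ X) (_ : CompleteSpace X),
      Asplund X ∧
      ∀ (Y : Type) [NormedAddCommGroup Y] [NormedSpace ℝ Y], Nonempty (X ≃L[ℝ] Y) →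
        ¬ HasBasis (StrongDual ℝ Y) := by
  refine ⟨XX, inferInstance, inferInstance, inferInstance, asp, ?_⟩
  rintro Y _ _ ⟨e⟩ ⟨Γ, y, f, -, -, h1, -, h2⟩
  obtain ⟨h, a1, a2, a3⟩ := q2 y h1 h2
  exact q1 e h a1 a2 a3

end Pool.Agent.Results.MP_526336_an.NoBasis
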