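import Pool.Agent.H.MP_526336.C

set_option autoImplicit false

namespace Pool.Agent.Results.MP_526336_an.NoRenorming

open Pool.Agent.H.MP_526336

def Asplund (X : Type) [NormedAddCommGroup X] [NormedSpace ℝ X] : Prop :=
  ∀ Z : Submodule ℝ X, TopologicalSpace.IsSeparable (Z : Set X) →
    TopologicalSpace.SeparableSpace (StrongDual ℝ Z)

def HasDenseSigma (K : Type) [TopologicalSpace K] : Prop :=
  ∃ (Γ : Type) (h : K → Γ → ℝ),
    Topology.IsEmbedding h ∧ Dense (h ⁻¹' {x : Γ → ℝ | {γ : Γ | x γ ≠ 0}.Countable})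

def DualBall (V : Type) [NormedAddCommGroup V] [NormedSpace ℝ V] : Set (WeakDual ℝ V) :=
  {p | ∀ v, ‖p v‖ ≤ ‖v‖}

theorem result :
    ∃ (X : Type) (_ : NormedAddCommGroup X) (_ : NormedSpace ℝ X) (_ : CompleteSpace X),
      Asplund X ∧
      ∀ (Y : Type) [NormedAddCommGroup Y] [NormedSpace ℝ Y], Nonempty (X ≃L[ℝ] Y) →
        ¬ HasDenseSigma (DualBall (StrongDual ℝ Y)) := by
  refine ⟨XX, inferInstance, inferInstance, inferInstance, asp, ?_⟩
  rintro Y _ _ ⟨e⟩ ⟨Γ, h, h1, h2⟩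
  exact q1 e h h1.continuous h1.injective h2

end Pool.Agent.Results.MP_526336_an.NoRenorming
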